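import Pool.Agent.H111R5.CP.Stmts

set_option autoImplicit false

open MeasureTheory ProbabilityTheory Filter Finset

namespace Pool.Agent.H87R3.CP

open Pool.Agent.H111R5.CP

variable {S : Type} [MeasurableSpace S] (μ : Measure S) [IsProbabilityMeasure μ]

/-- the product measure -/
noncomputable abbrev PI : Measure (ℕ → S) := Measure.infinitePi (fun _ : ℕ => μ)

theorem meas_update (k : ℕ) :
    Measurable (fun z : (ℕ → S) × S => Function.update z.1 k z.2) := by
  rw [measurable_pi_iff]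
  intro i
  by_cases h : i = k
  · subst h
    simp only [Function.update_self]
    exact measurable_snd
  · simp only [Function.update_of_ne h]
    exact (measurable_pi_apply i).comp measurable_fst

theorem mp_update (k : ℕ) : MeasurePreserving
    (fun z : (ℕ → S) × S => Function.update z.1 k z.2) ((PI μ).prod μ) (PI μ) := by
  refine ⟨meas_update k, ?_⟩
  apply Measure.eq_infinitePi
  intro s t ht
  rw [Measure.map_apply (meas_update k) (MeasurableSet.pi s.countable_toSet fun _ _ => ht _)]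
  by_cases hk : k ∈ s
  · have e : (fun z : (ℕ → S) × S => Function.update z.1 k z.2) ⁻¹' (Set.pi (s : Set ℕ) t) =
        (Set.pi ((s.erase k : Finset ℕ) : Set ℕ) t) ×ˢ (t k) := by
      ext z
      simp only [Set.mem_preimage, Set.mem_pi, Finset.mem_coe, Set.mem_prod, Finset.mem_erase]
      constructor
      · intro h
        refine ⟨fun i hi => ?_, ?_⟩
        · have := h i hi.2
          rwa [Function.update_of_ne hi.1] at this
        · have := h k hk
          rwa [Function.update_self] at this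
      · rintro ⟨h1, h2⟩ i hi
        by_cases hik : i = k
        · subst hik
          rwa [Function.update_self]
        · rw [Function.update_of_ne hik]
          exact h1 i ⟨hik, hi⟩
    rw [e, Measure.prod_prod, Measure.infinitePi_pi _ (fun i _ => ht i),
      Finset.prod_erase_mul s _ hk]
  · have e : (fun z : (ℕ → S) × S => Function.update z.1 k z.2) ⁻¹' (Set.pi (s : Set ℕ) t) =
        (Set.pi (s : Set ℕ) t) ×ˢ Set.univ := by
      ext z
      simp only [Set.mem_preimage, Set.mem_pi, Finset.mem_coe, Set.mem_prod, Set.mem_univ,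
        and_true]
      constructor
      · intro h i hi
        have := h i hi
        have hik : i ≠ k := by
          rintro rfl
          exact hk hi
        rwa [Function.update_of_ne hik] at this
      · intro h i hi
        have hik : i ≠ k := by
          rintro rfl
          exact hk hi
        rw [Function.update_of_ne hik]
        exact h i hi
    rw [e, Measure.prod_prod, Measure.infinitePi_pi _ (fun i _ => ht i), measure_univ, mul_one]

/-- integrate out the coordinate `k` -/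
noncomputable def T (k : ℕ) (u : (ℕ → S) → ℝ) (w : ℕ → S) : ℝ :=
  ∫ s, u (Function.update w k s) ∂μ

theorem T_meas (k : ℕ) {u : (ℕ → S) → ℝ} (hu : Measurable u) : Measurable (T μ k u) := by
  have h : StronglyMeasurable (fun z : (ℕ → S) × S => u (Function.update z.1 k z.2)) :=
    (hu.comp (meas_update k)).stronglyMeasurable
  exact h.integral_prod_right.measurable

theorem prod_int (k : ℕ) {u : (ℕ → S) → ℝ} (hu : Integrable u (PI μ)) :
    Integrable (fun z : (ℕ → S) × S => u (Function.update z.1 k z.2)) ((PI μ).prod μ) :=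
  ((mp_update μ k).integrable_comp hu.aestronglyMeasurable).2 hu

theorem T_int (k : ℕ) {u : (ℕ → S) → ℝ} (hu : Integrable u (PI μ)) :
    Integrable (T μ k u) (PI μ) := (prod_int μ k hu).integral_prod_left

theorem T_integral (k : ℕ) {u : (ℕ → S) → ℝ} (hu : Integrable u (PI μ)) :
    ∫ w, T μ k u w ∂(PI μ) = ∫ w, u w ∂(PI μ) := by
  unfold T
  rw [← integral_prod _ (prod_int μ k hu)]
  have h := integral_map (μ := (PI μ).prod μ) (meas_update (S := S) k).aemeasurable (f := u) (by
    rw [(mp_update μ k).map_eq]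
    exact hu.aestronglyMeasurable)
  rw [(mp_update μ k).map_eq] at h
  exact h.symm

theorem T_ae (k : ℕ) {u : (ℕ → S) → ℝ} (hu : Integrable u (PI μ)) :
    ∀ᵐ w ∂(PI μ), Integrable (fun s => u (Function.update w k s)) μ :=
  (prod_int μ k hu).prod_right_ae

theorem var_le {v : S → ℝ} (h1 : Integrable v μ) (h2 : Integrable (fun s => v s ^ 2) μ) (c : ℝ) :
    ∫ s, v s ^ 2 ∂μ - (∫ s, v s ∂μ) ^ 2 ≤ ∫ s, (v s - c) ^ 2 ∂μ := by
  have e : ∫ s, (v s - c) ^ 2 ∂μ = ∫ s, v s ^ 2 ∂μ - 2 * c * ∫ s, v s ∂μ + c ^ 2 := by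
    have : ∀ s, (v s - c) ^ 2 = (v s ^ 2 - (2 * c) * v s) + c ^ 2 := fun s => by ring
    have i1 : Integrable (fun s => v s ^ 2 - (2 * c) * v s) μ := h2.sub (h1.const_mul _)
    simp only [this]
    rw [integral_add i1 (integrable_const _), integral_sub h2
      (h1.const_mul _), integral_const_mul]
    simp
  rw [e]
  nlinarith [sq_nonneg (∫ s, v s ∂μ - c)]

theorem sq_le {v : S → ℝ} (h1 : Integrable v μ) (h2 : Integrable (fun s => v s ^ 2) μ) :
    (∫ s, v s ∂μ) ^ 2 ≤ ∫ s, v s ^ 2 ∂μ := by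
  have h := var_le μ h1 h2 (∫ s, v s ∂μ)
  have e : ∫ s, (v s - ∫ s, v s ∂μ) ^ 2 ∂μ = ∫ s, v s ^ 2 ∂μ - (∫ s, v s ∂μ) ^ 2 := by
    set c := ∫ s, v s ∂μ with hc
    have : ∀ s, (v s - c) ^ 2 = (v s ^ 2 - (2 * c) * v s) + c ^ 2 := fun s => by ring
    have i1 : Integrable (fun s => v s ^ 2 - (2 * c) * v s) μ := h2.sub (h1.const_mul _)
    simp only [this]
    rw [integral_add i1 (integrable_const _), integral_sub h2
      (h1.const_mul _), integral_const_mul, ← hc]
    simp
    ring
  have h0 : 0 ≤ ∫ s, (v s - ∫ s, v s ∂μ) ^ 2 ∂μ := integral_nonneg fun s => sq_nonneg _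
  linarith

theorem L2_int {u : (ℕ → S) → ℝ} (hu : MemLp u 2 (PI μ)) : Integrable u (PI μ) :=
  hu.integrable (by norm_num)

/-- for almost all `w` the section is square integrable -/
theorem sec (k : ℕ) {u : (ℕ → S) → ℝ} (hu : MemLp u 2 (PI μ)) :
    ∀ᵐ w ∂(PI μ), Integrable (fun s => u (Function.update w k s)) μ ∧
      Integrable (fun s => u (Function.update w k s) ^ 2) μ := by
  filter_upwards [T_ae μ k (L2_int μ hu), T_ae μ k hu.integrable_sq] with w h1 h2
  exact ⟨h1, h2⟩

theorem T_sq (k : ℕ) {u : (ℕ → S) → ℝ} (hm : Measurable u) (hu : MemLp u 2 (PI μ)) :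
    Integrable (fun w => T μ k u w ^ 2) (PI μ) ∧
      ∫ w, T μ k u w ^ 2 ∂(PI μ) ≤ ∫ w, u w ^ 2 ∂(PI μ) := by
  have h1 : ∀ᵐ w ∂(PI μ), T μ k u w ^ 2 ≤ T μ k (fun w => u w ^ 2) w := by
    filter_upwards [sec μ k hu] with w hw
    exact sq_le μ hw.1 hw.2
  have h2 : Integrable (T μ k (fun w => u w ^ 2)) (PI μ) := T_int μ k hu.integrable_sq
  have h3 : Integrable (fun w => T μ k u w ^ 2) (PI μ) := by
    apply h2.mono' ((T_meas μ k hm).pow_const 2).aestronglyMeasurable
    filter_upwards [h1] with w hw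
    rw [Real.norm_eq_abs, abs_of_nonneg (sq_nonneg _)]
    exact hw
  refine ⟨h3, ?_⟩
  rw [← T_integral μ k hu.integrable_sq]
  exact integral_mono_ae h3 h2 h1

theorem T_mem (k : ℕ) {u : (ℕ → S) → ℝ} (hm : Measurable u) (hu : MemLp u 2 (PI μ)) :
    MemLp (T μ k u) 2 (PI μ) :=
  (memLp_two_iff_integrable_sq (T_meas μ k hm).aestronglyMeasurable).2 (T_sq μ k hm hu).1

theorem T_contr (k : ℕ) {u v : (ℕ → S) → ℝ} (hm : Measurable u) (hu : MemLp u 2 (PI μ))
    (hm' : Measurable v) (hv : MemLp v 2 (PI μ)) :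
    ∫ w, (T μ k u w - T μ k v w) ^ 2 ∂(PI μ) ≤ ∫ w, (u w - v w) ^ 2 ∂(PI μ) := by
  have h := (T_sq μ k (hm.sub hm') (hu.sub hv)).2
  refine le_trans (le_of_eq ?_) h
  apply integral_congr_ae
  filter_upwards [sec μ k hu, sec μ k hv] with w h1 h2
  unfold T
  simp only [Pi.sub_apply]
  rw [integral_sub h1.1 h2.1]

theorem T_var (k : ℕ) {u G : (ℕ → S) → ℝ} (hm : Measurable u) (hu : MemLp u 2 (PI μ))
    (hG : MemLp G 2 (PI μ)) (hGk : ∀ w s, G (Function.update w k s) = G w) :
    ∫ w, u w ^ 2 ∂(PI μ) - ∫ w, T μ k u w ^ 2 ∂(PI μ) ≤ ∫ w, (u w - G w) ^ 2 ∂(PI μ) := by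
  have h1 := T_sq μ k hm hu
  have h2 : Integrable (T μ k (fun w => u w ^ 2)) (PI μ) := T_int μ k hu.integrable_sq
  have i3 : Integrable (fun w => (u w - G w) ^ 2) (PI μ) := (hu.sub hG).integrable_sq
  have h3 : Integrable (T μ k (fun w => (u w - G w) ^ 2)) (PI μ) := T_int μ k i3
  rw [← T_integral μ k hu.integrable_sq, ← T_integral μ k i3, ← integral_sub h2 h1.1]
  apply integral_mono_ae (h2.sub h1.1) h3
  filter_upwards [sec μ k hu] with w hw
  unfold T
  simp only [Pi.sub_apply, hGk]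
  exact var_le μ hw.1 hw.2 (G w)

/-- integrate out the coordinates `1, ..., j` -/
noncomputable def I : ℕ → ((ℕ → S) → ℝ) → (ℕ → S) → ℝ
  | 0, u => u
  | j + 1, u => T μ (j + 1) (I j u)

theorem I_mem (j : ℕ) {u : (ℕ → S) → ℝ} (hm : Measurable u) (hu : MemLp u 2 (PI μ)) :
    Measurable (I μ j u) ∧ MemLp (I μ j u) 2 (PI μ) := by
  induction j with
  | zero => exact ⟨hm, hu⟩
  | succ j ih => exact ⟨T_meas μ _ ih.1, T_mem μ _ ih.1 ih.2⟩

theorem I_contr (j : ℕ) {u v : (ℕ → S) → ℝ} (hm : Measurable u) (hu : MemLp u 2 (PI μ))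
    (hm' : Measurable v) (hv : MemLp v 2 (PI μ)) :
    ∫ w, (I μ j u w - I μ j v w) ^ 2 ∂(PI μ) ≤ ∫ w, (u w - v w) ^ 2 ∂(PI μ) := by
  induction j with
  | zero => exact le_rfl
  | succ j ih =>
    have h1 := I_mem μ j hm hu
    have h2 := I_mem μ j hm' hv
    exact (T_contr μ (j + 1) h1.1 h1.2 h2.1 h2.2).trans ih

theorem I_inv (j k : ℕ) (hjk : j < k) {u : (ℕ → S) → ℝ}
    (hu : ∀ w s, u (Function.update w k s) = u w) (w : ℕ → S) (s : S) :
    I μ j u (Function.update w k s) = I μ j u w := by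
  induction j generalizing w with
  | zero => exact hu w s
  | succ j ih =>
    change T μ (j + 1) (I μ j u) _ = T μ (j + 1) (I μ j u) _
    unfold T
    congr 1
    funext x
    rw [Function.update_comm (by omega : k ≠ j + 1)]
    exact ih (by omega) _

theorem I_dep (N j : ℕ) {f : (ℕ → S) → ℝ}
    (hf : ∀ w w' : ℕ → S, (∀ n ∈ Icc 1 N, w n = w' n) → f w = f w') :
    ∀ w w' : ℕ → S, (∀ n ∈ Icc (j + 1) N, w n = w' n) → I μ j f w = I μ j f w' := by
  induction j with
  | zero => exact hf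
  | succ j ih =>
    intro w w' h
    change T μ (j + 1) (I μ j f) _ = T μ (j + 1) (I μ j f) _
    unfold T
    congr 1
    funext x
    apply ih
    intro n hn
    rw [mem_Icc] at hn
    by_cases hnj : n = j + 1
    · subst hnj
      simp
    · rw [Function.update_of_ne hnj, Function.update_of_ne hnj]
      exact h n (mem_Icc.2 ⟨by omega, hn.2⟩)

theorem I_integral (j : ℕ) {u : (ℕ → S) → ℝ} (hm : Measurable u) (hu : MemLp u 2 (PI μ)) :
    ∫ w, I μ j u w ∂(PI μ) = ∫ w, u w ∂(PI μ) := by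
  induction j with
  | zero => rfl
  | succ j ih =>
    rw [← ih]
    exact T_integral μ (j + 1) (L2_int μ (I_mem μ j hm hu).2)

theorem taskES : TaskES := by
  intro S _ μ _ N f g hf hm hfL hg
  have main : ∀ j ≤ N, ∫ w, f w ^ 2 ∂(PI μ) - ∫ w, I μ j f w ^ 2 ∂(PI μ) ≤
      ∑ k ∈ Icc 1 j, ∫ w, (f w - g k w) ^ 2 ∂(PI μ) := by
    intro j
    induction j with
    | zero =>
      intro _
      simp [I]
    | succ j ih =>
      intro hj
      have h1 := ih (by omega)
      obtain ⟨gm, gL, gi⟩ := hg (j + 1) (mem_Icc.2 ⟨by omega, hj⟩)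
      have a := I_mem μ j hm hfL
      have b := I_mem μ j gm gL
      have h2 := T_var μ (j + 1) a.1 a.2 b.2 (I_inv μ j (j + 1) (by omega) gi)
      have h3 := I_contr μ j hm hfL gm gL
      rw [← Finset.insert_Icc_right_eq_Icc_add_one (by omega), Finset.sum_insert (by simp)]
      change _ - ∫ w, T μ (j + 1) (I μ j f) w ^ 2 ∂(PI μ) ≤ _
      linarith
  have h := main N le_rfl
  have w0 : ℕ → S := by
    have : Nonempty (ℕ → S) := by
      by_contra hne
      rw [not_nonempty_iff] at hne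
      have h1 : (PI μ) Set.univ = 1 := measure_univ
      rw [Set.univ_eq_empty_iff.2 hne, measure_empty] at h1
      exact zero_ne_one h1
    exact Classical.choice this
  have hc : ∀ w, I μ N f w = I μ N f w0 := fun w => I_dep μ N N hf w w0 (fun n hn => by
    rw [mem_Icc] at hn
    omega)
  have h1 : ∫ w, I μ N f w ∂(PI μ) = I μ N f w0 := by
    simp only [hc]
    simp
  have h2 : ∫ w, I μ N f w ^ 2 ∂(PI μ) = I μ N f w0 ^ 2 := by
    simp only [hc]
    simp
  rw [I_integral μ N hm hfL] at h1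
  rw [h2, ← h1] at h
  rw [variance_eq_sub hfL]
  exact h

end Pool.Agent.H87R3.CP
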